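import Pool.Agent.H64.FU.Dom
import Pool.Agent.H21.SL.Glue
import Pool.Agent.H47.ST.DomK

/-!
# Project FULL: the estimates for the carriers of a path of linear maps
-/

set_option autoImplicit false
set_option linter.unusedSectionVars false

namespace Pool.Agent.H64.FU

open Filter Topology
open Pool.Agent.H47.ST
open Pool.Agent.H21.SL (Car)

/-- rounded paths -/
structure Rnd {ι : Type*} (L : AddSubgroup (ι → ℤ)) (e : Equiv.Perm ι) (J : ℕ)
    (lo hi : ℕ → (ι → ℤ) → (ι → ℤ)) : Prop where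
  le : ∀ j v, lo j v ≤ hi j v
  lo0 : ∀ v, lo 0 v = v
  hi0 : ∀ v, hi 0 v = v
  loJ : ∀ v, lo J v = v ∘ e
  hiJ : ∀ v, hi J v = v ∘ e
  lol : ∀ j, ∀ l ∈ L, ∀ v, lo j (v + l) = lo j v + l
  hil : ∀ j, ∀ l ∈ L, ∀ v, hi j (v + l) = hi j v + l

/-- the lower rounding of a path -/
noncomputable def lof {ι : Type*} [Fintype ι] (P : ℝ → ((ι → ℝ) →L[ℝ] (ι → ℝ))) (J m : ℕ)
    (j : ℕ) (v : ι → ℤ) : ι → ℤ := fun i => ⌊(m : ℝ) * P (j / J) (ps m v) i⌋

/-- the upper rounding of a path -/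
noncomputable def hif {ι : Type*} [Fintype ι] (P : ℝ → ((ι → ℝ) →L[ℝ] (ι → ℝ))) (J m : ℕ)
    (j : ℕ) (v : ι → ℤ) : ι → ℤ := fun i => ⌈(m : ℝ) * P (j / J) (ps m v) i⌉

theorem rnd_path {ι : Type*} [Fintype ι] [DecidableEq ι] {L : AddSubgroup (ι → ℤ)} {e : Equiv.Perm ι}
    {P : ℝ → ((ι → ℝ) →L[ℝ] (ι → ℝ))} (h0 : ∀ y, P 0 y = y)
    (h1 : ∀ y, P 1 y = y ∘ e) (hlat : ∀ t, ∀ l ∈ L, P t (rl l) = rl l) {J m : ℕ} (hJ : 0 < J)
    (hm : 0 < m) : Rnd (lam L m) e J (lof P J m) (hif P J m) := by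
  have hm' : (m : ℝ) ≠ 0 := by exact_mod_cast hm.ne'
  have hJ' : (J : ℝ) ≠ 0 := by exact_mod_cast hJ.ne'
  have hps : ∀ (v : ι → ℤ) i, (m : ℝ) * ps m v i = v i := by
    intro v i
    simp only [ps]
    field_simp
  have key : ∀ j, ∀ l ∈ lam L m, ∀ (v : ι → ℤ) i, (m : ℝ) * P (j / J) (ps m (v + l)) i =
      (m : ℝ) * P (j / J) (ps m v) i + (l i : ℝ) := by
    rintro j _ ⟨l, hl, rfl⟩ v i
    have h3 : ps m (v + (m : ℤ) • l) = ps m v + rl l := Fine_ps_add hm v l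
    show (m : ℝ) * P (j / J) (ps m (v + (m : ℤ) • l)) i = _
    rw [h3, map_add, hlat _ l hl, Pi.add_apply, mul_add]
    congr 1
    show (m : ℝ) * (l i : ℝ) = (((m : ℤ) • l) i : ℤ)
    rw [Pi.smul_apply, smul_eq_mul]
    push_cast
    ring
  refine ⟨fun j v i => Int.floor_le_ceil _, fun v => ?_, fun v => ?_, fun v => ?_, fun v => ?_,
    fun j l hl v => ?_, fun j l hl v => ?_⟩
  · funext i
    simp only [lof, Nat.cast_zero, zero_div, h0, hps, Int.floor_intCast]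
  · funext i
    simp only [hif, Nat.cast_zero, zero_div, h0, hps, Int.ceil_intCast]
  · funext i
    simp only [lof, div_self hJ', h1, Function.comp_apply, hps, Int.floor_intCast]
  · funext i
    simp only [hif, div_self hJ', h1, Function.comp_apply, hps, Int.ceil_intCast]
  · funext i
    simp only [lof, key j l hl, Int.floor_add_intCast, Pi.add_apply]
  · funext i
    simp only [hif, key j l hl, Int.ceil_add_intCast, Pi.add_apply]

/-- uniform continuity near a compact set -/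
theorem unif_cpt {E : Type*} [PseudoMetricSpace E] {K : Set E} (hK : IsCompact K) {h : E → ℝ}
    (hh : Continuous h) {ε : ℝ} (hε : 0 < ε) :
    ∃ ρ > 0, ∀ x ∈ K, ∀ y, dist y x < ρ → |h y - h x| < ε := by
  have h1 := hK.uniformContinuousAt_of_continuousAt h (fun a _ => hh.continuousAt)
    (Metric.dist_mem_uniformity hε)
  obtain ⟨ρ, hρ, h2⟩ := Metric.mem_uniformity_dist.1 h1
  refine ⟨ρ, hρ, fun x hx y hy => ?_⟩
  have h3 := h2 (a := x) (b := y) (by rwa [dist_comm]) hx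
  have h4 : dist (h x) (h y) < ε := h3
  rwa [dist_comm, Real.dist_eq] at h4

/-- **Estimates for the carriers.** -/
theorem est {ι : Type*} [Fintype ι] [DecidableEq ι] {L : AddSubgroup (ι → ℤ)}
    {q Q : (ι → ℝ) → ℝ} {R a : ℝ} (hD : Dm L q Q R a)
    {P : ℝ → ((ι → ℝ) →L[ℝ] (ι → ℝ))} (hPc : Continuous P) (h0 : ∀ y, P 0 y = y)
    (hlat : ∀ t, ∀ l ∈ L, P t (rl l) = rl l) {g : (ι → ℝ) → ℝ} (hg : Continuous g)
    (hgp : PerL L g) {C₀ : ℝ} (hC : ∀ t y, |g (P t y) - g y| ≤ C₀) {δ : ℝ} (hδ : 0 < δ) :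
    ∃ R' ≥ R, ∃ J : ℕ, 0 < J ∧ ∀ᶠ m : ℕ in atTop,
      ∀ v, q (ps m v) ≤ R → -a ≤ Q (ps m v) → ∀ σ, Simp σ → v ∈ σ →
        ∀ j < J, ∀ w, Car (lof P J m) (hif P J m) j σ w → q (ps m w) ≤ R' ∧
          ∀ v' ∈ σ, g (ps m w) ≤ g (ps m v') + C₀ + δ := by
  classical
  obtain ⟨K, hK, hK'⟩ := hD.cpt
  have hcont : Continuous fun p : ℝ × (ι → ℝ) => P p.1 p.2 :=
    (hPc.comp continuous_fst).clm_apply continuous_snd
  set K₂ : Set (ι → ℝ) := (fun p : ℝ × (ι → ℝ) => P p.1 p.2) '' (Set.Icc 0 1 ×ˢ K) with hK₂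
  have hK₂c : IsCompact K₂ := (isCompact_Icc.prod hK).image hcont
  have hmem : ∀ t ∈ Set.Icc (0 : ℝ) 1, ∀ y ∈ K, P t y ∈ K₂ := fun t ht y hy =>
    ⟨(t, y), ⟨ht, hy⟩, rfl⟩
  obtain ⟨ρ₁, hρ₁, H1⟩ := unif_cpt hK₂c hg (half_pos hδ)
  obtain ⟨ρ₂, hρ₂, H2⟩ := unif_cpt hK₂c hD.q1.continuous one_pos
  obtain ⟨Bq, hBq⟩ := hK₂c.exists_bound_of_continuousOn hD.q1.continuous.continuousOn
  obtain ⟨B, hB⟩ := hK.isBounded.exists_norm_le
  obtain ⟨M, hM⟩ := isCompact_Icc.exists_bound_of_continuousOn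
    (s := Set.Icc (0 : ℝ) 1) hPc.continuousOn
  set ρ : ℝ := min ρ₁ ρ₂ with hρdef
  have hρ : 0 < ρ := lt_min hρ₁ hρ₂
  have hM0 : 0 ≤ M := (norm_nonneg _).trans (hM 0 ⟨le_rfl, zero_le_one⟩)
  have hB1 : 0 < |B| + 1 := by positivity
  set η : ℝ := ρ / (2 * (|B| + 1)) with hηdef
  have hη : 0 < η := by positivity
  obtain ⟨ε, hε, H3⟩ := Metric.uniformContinuousOn_iff.1
    (isCompact_Icc.uniformContinuousOn_of_continuous (s := Set.Icc (0 : ℝ) 1)
      hPc.continuousOn) η hη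
  obtain ⟨J, hJ⟩ := exists_nat_gt (max (1 / ε) 0)
  have hJ0 : (0 : ℝ) < J := (le_max_right _ _).trans_lt hJ
  have hJε : 1 / (J : ℝ) < ε := by
    have h3 := (le_max_left _ _).trans_lt hJ
    rw [div_lt_iff₀ hε] at h3
    rw [div_lt_iff₀ hJ0]
    linarith
  obtain ⟨m₀, hm₀⟩ := exists_nat_gt (2 * (M + 1) / ρ)
  refine ⟨max R (Bq + 1), le_max_left _ _, J, by exact_mod_cast hJ0, ?_⟩
  filter_upwards [eventually_ge_atTop (max m₀ 1)] with m hm v hq hQ σ hσ hv j hj w hw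
  have hmpos : 0 < m := lt_of_lt_of_le one_pos ((le_max_right _ _).trans hm)
  have hm' : (0 : ℝ) < m := by exact_mod_cast hmpos
  have hmm : 2 * (M + 1) / ρ < m := hm₀.trans_le (by exact_mod_cast (le_max_left _ _).trans hm)
  have hmρ : (M + 1) / m < ρ / 2 := by
    rw [div_lt_iff₀ hρ] at hmm
    rw [div_lt_iff₀ hm']
    linarith
  obtain ⟨l, hl, hlK⟩ := hK' _ hq hQ
  set y₀ : ι → ℝ := ps m v + rl l with hy₀
  set t : ℝ := (j : ℝ) / J with ht
  have htI : t ∈ Set.Icc (0 : ℝ) 1 := by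
    refine ⟨by positivity, ?_⟩
    rw [ht, div_le_one hJ0]
    exact_mod_cast hj.le
  -- neighbours
  have hnb : ∀ v' ∈ σ, ∀ i, |(ps m v' + rl l) i - y₀ i| ≤ 1 / m := by
    intro v' hv' i
    have h3 := adj_le (hσ v hv v' hv') i
    have h4 : (ps m v' + rl l) i - y₀ i = ((v' i - v i : ℤ) : ℝ) / m := by
      simp only [hy₀, Pi.add_apply, ps]
      push_cast
      ring
    rw [h4, abs_div, abs_of_pos hm', ← Int.cast_abs]
    have h5 : ((|v' i - v i| : ℤ) : ℝ) ≤ 1 := by exact_mod_cast h3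
    gcongr
  have hnbn : ∀ v' ∈ σ, ‖(ps m v' + rl l) - y₀‖ ≤ 1 / m := by
    intro v' hv'
    rw [pi_norm_le_iff_of_nonneg (by positivity)]
    intro i
    rw [Real.norm_eq_abs]
    exact hnb v' hv' i
  -- the images of the vertices
  have himg : ∀ v' ∈ σ, ∀ t', (t' = t ∨ t' = ((j + 1 : ℕ) : ℝ) / J) → ∀ i,
      |(P t' (ps m v') i + (l i : ℝ)) - P t y₀ i| < M / m + ρ / 2 := by
    intro v' hv' t' ht' i
    have ht'I : t' ∈ Set.Icc (0 : ℝ) 1 := by
      rcases ht' with rfl | rfl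
      · exact htI
      · refine ⟨by positivity, ?_⟩
        rw [div_le_one hJ0]
        exact_mod_cast hj
    have hdist : dist t' t < ε := by
      rcases ht' with rfl | rfl
      · rw [dist_self]
        exact hε
      · rw [Real.dist_eq, ht, ← sub_div]
        push_cast
        rw [add_sub_cancel_left, abs_of_pos (by positivity)]
        exact hJε
    have h3 : P t' (ps m v') i + (l i : ℝ) = P t' (ps m v' + rl l) i := by
      rw [map_add, hlat _ l hl]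
      rfl
    have h4 : P t' (ps m v' + rl l) - P t y₀ =
        P t' ((ps m v' + rl l) - y₀) + (P t' - P t) y₀ := by
      rw [map_sub, sub_apply]
      abel
    have h5 : ‖P t' ((ps m v' + rl l) - y₀)‖ ≤ M / m := by
      refine ((P t').le_opNorm _).trans ?_
      have h6 := hM t' ht'I
      have h7 := hnbn v' hv'
      calc ‖P t'‖ * ‖(ps m v' + rl l) - y₀‖ ≤ M * (1 / m) := by gcongr
        _ = M / m := by ring
    have h6 : ‖(P t' - P t) y₀‖ < ρ / 2 := by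
      refine ((P t' - P t).le_opNorm _).trans_lt ?_
      have h7 := H3 t' ht'I t htI hdist
      rw [dist_eq_norm] at h7
      have h8 := hB _ hlK
      have h9 : ‖y₀‖ ≤ |B| := h8.trans (le_abs_self B)
      calc ‖P t' - P t‖ * ‖y₀‖ ≤ η * |B| := by gcongr
        _ < η * (|B| + 1) := by
          have := hη
          nlinarith
        _ = ρ / 2 := by
          rw [hηdef]
          field_simp
    rw [h3, ← Pi.sub_apply, h4, Pi.add_apply]
    refine (abs_add_le _ _).trans_lt ?_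
    have h7 := (norm_le_pi_norm (P t' ((ps m v' + rl l) - y₀)) i).trans h5
    have h8 := (norm_le_pi_norm ((P t' - P t) y₀) i).trans_lt h6
    rw [Real.norm_eq_abs] at h7 h8
    linarith
  -- the vertex of the carrier
  have hwd : dist (ps m w + rl l) (P t y₀) < ρ := by
    rw [dist_pi_lt_iff hρ]
    intro i
    rw [Real.dist_eq, abs_lt]
    obtain ⟨⟨v₁, hv₁, h3⟩, ⟨v₂, hv₂, h4⟩⟩ := hw i
    have hsum : M / m + ρ / 2 + 1 / m < ρ := by
      have h5 : M / m + 1 / m = (M + 1) / m := by ring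
      linarith
    have hwi : (ps m w + rl l) i = (w i : ℝ) / m + (l i : ℝ) := rfl
    constructor
    · have h5 : ∃ t', (t' = t ∨ t' = ((j + 1 : ℕ) : ℝ) / J) ∧
          (m : ℝ) * P t' (ps m v₁) i - 1 ≤ w i := by
        rcases h3 with h3 | h3
        · refine ⟨t, Or.inl rfl, ?_⟩
          have h6 := Int.sub_one_lt_floor ((m : ℝ) * P t (ps m v₁) i)
          have h7 : ((⌊(m : ℝ) * P t (ps m v₁) i⌋ : ℤ) : ℝ) ≤ w i := by exact_mod_cast h3
          linarith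
        · refine ⟨((j + 1 : ℕ) : ℝ) / J, Or.inr rfl, ?_⟩
          have h6 := Int.sub_one_lt_floor ((m : ℝ) * P (((j + 1 : ℕ) : ℝ) / J) (ps m v₁) i)
          have h7 : ((⌊(m : ℝ) * P (((j + 1 : ℕ) : ℝ) / J) (ps m v₁) i⌋ : ℤ) : ℝ) ≤ w i := by
            exact_mod_cast h3
          linarith
      obtain ⟨t', ht', h6⟩ := h5
      have h7 := (abs_lt.1 (himg v₁ hv₁ t' ht' i)).1
      have h8 : P t' (ps m v₁) i - 1 / m ≤ (w i : ℝ) / m := by
        rw [le_div_iff₀ hm', sub_mul, one_div, inv_mul_cancel₀ hm'.ne']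
        linarith
      rw [hwi]
      linarith
    · have h5 : ∃ t', (t' = t ∨ t' = ((j + 1 : ℕ) : ℝ) / J) ∧
          (w i : ℝ) ≤ (m : ℝ) * P t' (ps m v₂) i + 1 := by
        rcases h4 with h4 | h4
        · refine ⟨t, Or.inl rfl, ?_⟩
          have h6 := Int.ceil_lt_add_one ((m : ℝ) * P t (ps m v₂) i)
          have h7 : (w i : ℝ) ≤ ((⌈(m : ℝ) * P t (ps m v₂) i⌉ : ℤ) : ℝ) := by exact_mod_cast h4
          linarith
        · refine ⟨((j + 1 : ℕ) : ℝ) / J, Or.inr rfl, ?_⟩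
          have h6 := Int.ceil_lt_add_one ((m : ℝ) * P (((j + 1 : ℕ) : ℝ) / J) (ps m v₂) i)
          have h7 : (w i : ℝ) ≤ ((⌈(m : ℝ) * P (((j + 1 : ℕ) : ℝ) / J) (ps m v₂) i⌉ : ℤ) : ℝ) := by
            exact_mod_cast h4
          linarith
      obtain ⟨t', ht', h6⟩ := h5
      have h7 := (abs_lt.1 (himg v₂ hv₂ t' ht' i)).2
      have h8 : (w i : ℝ) / m ≤ P t' (ps m v₂) i + 1 / m := by
        rw [div_le_iff₀ hm', add_mul, one_div, inv_mul_cancel₀ hm'.ne']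
        linarith
      rw [hwi]
      linarith
  have hxK : P t y₀ ∈ K₂ := hmem t htI y₀ hlK
  have hy₀K : y₀ ∈ K₂ := by
    have h3 := hmem 0 ⟨le_rfl, zero_le_one⟩ y₀ hlK
    rwa [h0] at h3
  constructor
  · have h3 := H2 _ hxK _ (hwd.trans_le (min_le_right _ _))
    have h4 := hBq _ hxK
    rw [Real.norm_eq_abs] at h4
    have h5 : q (ps m w + rl l) = q (ps m w) := hD.qp l hl _
    rw [h5] at h3
    refine le_trans ?_ (le_max_right _ _)
    linarith [(abs_lt.1 h3).2, (abs_le.1 h4).2]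
  · intro v' hv'
    have h3 := H1 _ hxK _ (hwd.trans_le (min_le_left _ _))
    have h4 : dist (ps m v' + rl l) y₀ < ρ₁ := by
      rw [dist_eq_norm]
      refine (hnbn v' hv').trans_lt (lt_of_lt_of_le ?_ (min_le_left ρ₁ ρ₂))
      have h5 : 1 / (m : ℝ) ≤ (M + 1) / m := by
        gcongr
        linarith
      linarith
    have h5 := H1 _ hy₀K _ h4
    have h6 := (abs_le.1 (hC t y₀)).2
    have e1 : g (ps m w + rl l) = g (ps m w) := hgp l hl _
    have e2 : g (ps m v' + rl l) = g (ps m v') := hgp l hl _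
    rw [e1] at h3
    rw [e2] at h5
    linarith [(abs_lt.1 h3).2, (abs_lt.1 h5).1]

end Pool.Agent.H64.FU
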