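import Pool.Agent.H64.FU.DomE
import Pool.Agent.H64.FU.Est
import Pool.Agent.H52.FU.Path
import Pool.Agent.H1.FU.Slide
import Pool.Agent.H75.FU.Defs
import Pool.Agent.H47.ST.Free

/-!
# Project FULL: the phase slip lemma for the action
-/

set_option autoImplicit false
set_option linter.unusedSectionVars false

namespace Pool.Agent.H64.FU

open Filter Topology
open Pool.Agent.H47.QG (Pt Gen)
open Pool.Agent.H47.ST
open Pool.Agent.H45.AC (shG)

/-- the homotopy of a rounded path -/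
theorem exists_CarH (F : Type*) [Field F] {ι : Type*} [Fintype ι] {L : AddSubgroup (ι → ℤ)}
    {e : Equiv.Perm ι} {J : ℕ} (hJ : 0 < J) {lo hi : ℕ → (ι → ℤ) → (ι → ℤ)}
    (hr : Rnd L e J lo hi) (he : ∀ l ∈ L, l ∘ e = l) :
    ∃ H : Co ι F →ₗ[F] Co ι F, Pool.Agent.H21.SL.CarH L e J lo hi H := by
  obtain ⟨H, h1, h2, h3⟩ := Pool.Agent.H52.FU.exists_H F J hJ lo hi hr.le e
    (fun v => ⟨hr.lo0 v, hr.hi0 v⟩) (fun v => ⟨hr.loJ v, hr.hiJ v⟩) L hr.lol hr.hil he
  refine ⟨H, ⟨fun a σ hσ => h1 a σ hσ, fun a σ h => ?_, fun a ha l hl σ => ?_⟩⟩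
  · obtain ⟨-, -, ρ, h4, h5, h6, j, hj, h7⟩ := h2 a σ h
    exact ⟨ρ, h4, h5, h6, j, hj, h7⟩
  · exact h3 l hl a (ha l hl) σ

variable {n : ℕ}

/-- `fS` is close to `Q` -/
theorem fS_near {S : ℕ → Pt n → ℝ} {B : ℝ} (hB : ∀ j z, |S j z| ≤ B) (K : ℕ) [NeZero K]
    (y : Iz n K → ℝ) : |fS S K y - QK n K y| ≤ K * B := by
  rw [ActZ_split, sub_sub_cancel_left, abs_neg]
  refine (Finset.abs_sum_le_sum_abs _ _).trans ?_
  refine (Finset.sum_le_sum (fun (j : Fin K) _ =>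
    hB (j : ℕ) (Pool.Agent.H47.QG.ActH_P n K j (eK n K y)))).trans ?_
  rw [Finset.sum_const, Finset.card_univ, Fintype.card_fin, nsmul_eq_mul]

/-- **Phase slip lemma**, abstract form: a path of linear maps. -/
theorem slip_path {K : ℕ} [NeZero K] {e : Equiv.Perm (Iz n K)}
    {P : ℝ → ((Iz n K → ℝ) →L[ℝ] (Iz n K → ℝ))} (hPc : Continuous P) (h0 : ∀ y, P 0 y = y)
    (h1 : ∀ y, P 1 y = y ∘ e) (hlat : ∀ t, ∀ l ∈ Lc n K, P t (rl l) = rl l)
    {g : (Iz n K → ℝ) → ℝ} (hg : ContDiff ℝ 1 g)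
    (hgp : PerL (Lc n K) g) {C₀ : ℝ} (hC : ∀ t y, |g (P t y) - g y| ≤ C₀)
    (hqe : ∀ y, qK n K (y ∘ e) = qK n K y) (hQe : ∀ y, QK n K (y ∘ e) = QK n K y)
    (hge : ∀ y, g (y ∘ e) = g y) (hle : ∀ l ∈ Lc n K, l ∘ e = l) {s : ℝ}
    (hs : ∀ y, |g y - QK n K y| ≤ s) {C : ℝ}
    (hgr : ∀ y b, |fderiv ℝ g y (Pi.single b 1) - DK n K y b| ≤ C) (F : Type*) [Field F] :
    Pool.Agent.H75.FU.Slip F n K e g (C₀ + 1) := by
  classical
  intro b₀
  have hC₀ : 0 ≤ C₀ := (abs_nonneg _).trans (hC 0 0)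
  obtain ⟨R₁, hR₁, hBd⟩ := dom_Bd n K one_pos C
  simp only [one_mul] at hBd
  have hDm : ∀ R a, Dm (Lc n K) (qK n K) (QK n K) R a := by
    intro R a
    have h := dom_Dm n K one_pos R a
    simpa only [one_mul] using h
  set a₀ : ℝ := max R₁ (s + 1 - b₀) with ha₀
  have ha1 : R₁ ≤ a₀ := le_max_left _ _
  have ha2 : s - a₀ + 1 ≤ b₀ := by linarith [le_max_right R₁ (s + 1 - b₀)]
  refine ⟨max R₁ (s + C₀ + 1 - b₀), fun R hR b hb => ?_⟩
  have hR1 : R₁ ≤ R := (le_max_left _ _).trans hR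
  have hR2 : -R + s + C₀ + 1 ≤ b₀ := by linarith [(le_max_right R₁ (s + C₀ + 1 - b₀)).trans hR]
  obtain ⟨R', hRR, J, hJ, hest⟩ := est (hDm R (R + 1)) hPc h0 hlat hg.continuous hgp hC one_pos
  have hfin : ∀ y, g y ≤ QK n K y + s := fun y => by linarith [(abs_le.1 (hs y)).2]
  have hdir : DirQ (qK n K) (QK n K) g R R' a₀ :=
    dirQ_of_Bd fun R'' hR'' =>
      (hBd R'' (hR1.trans hR''.1) a₀ ha1 g (hg.differentiable one_ne_zero) hgr).1
  have hex := dom_exact F (Lc n K) (qK n K) (QK n K) g R R' R a₀ b s hRR (hDm R' a₀) hg hgp hdir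
    hfin (by linarith)
  have hev : ∀ᶠ m : ℕ in atTop, ∀ j, ∀ c ∈ co (F := F) (lam (Lc n K) m) (Xm (qK n K) R m)
      (Lv (qK n K) (QK n K) g R R b m) (j + 1), dX (Xm (qK n K) R m) c = 0 →
      ∃ y ∈ co (F := F) (lam (Lc n K) m) (Xm (qK n K) R m)
        (Lv (qK n K) (QK n K) g R R (b - (C₀ + 1)) m) j,
        c - Tp e c = dX (Xm (qK n K) R m) y := by
    filter_upwards [hex, hest, unif (hDm R R) (hDm R R).Q1.continuous (hDm R R).Qp one_pos,
      eventually_gt_atTop 0] with m hex hbox hun hm j c hc hdc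
    obtain ⟨x, hx, hdx, hxc⟩ := hex (j + 1) c hc hdc
    have hr := rnd_path h0 h1 hlat hJ hm
    have hXi := Xm_inv (hDm R R).qp R hm
    have hAi := Lv_inv (hDm R R).qp (hDm R R).Qp hgp R R (b - (C₀ + 1)) hm
    have hpsc : ∀ v : Iz n K → ℤ, ps m (v ∘ e) = ps m v ∘ e := fun v => rfl
    have hXe : PInv e (Xm (qK n K) R m) := by
      intro v
      simp only [Xm, Set.mem_ofPred_eq, hpsc, hqe]
    have hAe : PInv e (Lv (qK n K) (QK n K) g R R (b - (C₀ + 1)) m) := by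
      intro v
      simp only [Lv, Set.mem_ofPred_eq, hpsc, hqe, hQe, hge]
    have hle' : ∀ l ∈ lam (Lc n K) m, l ∘ e = l := by
      rintro _ ⟨l, hl, rfl⟩
      have h3 := hle l hl
      funext i
      have h4 := congrFun h3 i
      simp only [Function.comp_apply] at h4
      show ((m : ℤ) • l) (e i) = ((m : ℤ) • l) i
      rw [Pi.smul_apply, Pi.smul_apply, h4]
    -- a vertex outside `A'`
    have hout : ∀ v, v ∈ Xm (qK n K) R m → v ∉ Lv (qK n K) (QK n K) g R R (b - (C₀ + 1)) m →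
        -R < QK n K (ps m v) := by
      intro v hv hv'
      by_contra h3
      exact hv' ⟨hv, Or.inl (not_lt.1 h3)⟩
    rcases isEmpty_or_nonempty (Iz n K) with hemp | ⟨⟨i₀⟩⟩
    · refine ⟨0, Submodule.zero_mem _, ?_⟩
      rw [map_zero, sub_eq_zero]
      funext σ
      have h3 : σ.map (pe e).toEmbedding = σ := by
        refine Finset.eq_of_subset_of_card_le (fun v hv => ?_) (by rw [Finset.card_map])
        obtain ⟨u, hu, hu'⟩ := Finset.mem_map.1 hv
        rwa [Subsingleton.elim v u]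
      show c σ = c (σ.map (pe e).toEmbedding)
      rw [h3]
    obtain ⟨H, hH⟩ := exists_CarH F hJ hr hle'
    obtain ⟨y, hy, hy'⟩ := Pool.Agent.H21.SL.slip_car hH (X := Xm (qK n K) R m) (X₁ := Xm (qK n K) R' m)
      (A := {v | g (ps m v) ≤ b}) (A' := Lv (qK n K) (QK n K) g R R (b - (C₀ + 1)) m)
      hXi hAi (fun v hv => by
        rcases hv.2 with h3 | h3
        · have h4 := hfin (ps m v)
          show g (ps m v) ≤ b
          linarith
        · show g (ps m v) ≤ b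
          linarith) hAe
      (fun σ hσ hn i hi' w hw => by
        push Not at hn
        obtain ⟨v, hv, hv'⟩ := hn
        have h3 := hout v (hσ.2 v hv) hv'
        exact (hbox v (hσ.2 v hv) (by linarith) σ hσ.1 hv i hi' w hw).1)
      (fun τ σ hστ hτ hn hσA i hi' w hw => by
        push Not at hn
        obtain ⟨v, hv, hv'⟩ := hn
        have h3 := hout v (hτ.2 v hv) hv'
        rcases σ.eq_empty_or_nonempty with rfl | ⟨u, hu⟩
        · obtain ⟨⟨u, hu, -⟩, -⟩ := hw i₀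
          exact absurd hu (Finset.notMem_empty u)
        · have hSσ : Simp σ := fun a ha b hb => hτ.1 a (hστ ha) b (hστ hb)
          have h4 := hun v u (hτ.2 v hv) h3.le (adj_le (hτ.1 v hv u (hστ hu)))
          have h5 := (abs_lt.1 h4).1
          obtain ⟨-, h6⟩ := hbox u (hτ.2 u (hστ hu)) (by linarith) σ hSσ hu i hi' w hw
          have h7 := h6 u hu
          show g (ps m w) ≤ b
          rcases (hσA u hu).2 with h8 | h8
          · have h9 := hfin (ps m u)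
            linarith
          · linarith) hx hdx
    refine ⟨y, hy, ?_⟩
    have hIn : ∀ σ, In (Xm (qK n K) R m) σ ↔ In (Xm (qK n K) R m) (σ.map (pe e).toEmbedding) :=
      fun σ => (Free_In hXe (σ := σ)).symm
    ext σ
    by_cases h3 : In (Xm (qK n K) R m) σ
    · have h4 := hy' σ h3
      rw [← h4, Pi.sub_apply]
      have h5 : c σ = x σ := by rw [← hxc, cut_apply, if_pos h3]
      have h6 : (Tp e c) σ = Tp e x σ := by
        show c (σ.map (pe e).toEmbedding) = x (σ.map (pe e).toEmbedding)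
        rw [← hxc, cut_apply, if_pos ((hIn σ).1 h3)]
      rw [h5, h6]
    · have h5 : c σ = 0 := by rw [← hxc, cut_apply, if_neg h3]
      have h6 : (Tp e c) σ = 0 := by
        show c (σ.map (pe e).toEmbedding) = _
        rw [← hxc, cut_apply, if_neg fun h => h3 ((hIn σ).2 h)]
      rw [Pi.sub_apply, h5, h6, dX_apply, if_neg h3, sub_zero]
  exact (tendsto_pow_atTop_atTop_of_one_lt one_lt_two).eventually hev

/-- **Phase slip lemma.** At an odd level `m` the shift by one period `N` has a loss of level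
independent of `m`. -/
theorem slip_fS {n : ℕ} {S : ℕ → Pt n → ℝ}
    {N m L : ℕ} (hN : 0 < N) (hm : Odd m) (hL : L = m * N) [NeZero L]
    (hper : ∀ j, S (j + N) = S j) {B : ℝ} (hB : ∀ j z, |S j z| ≤ B)
    (F : Type*) [Field F] {g : (Iz n L → ℝ) → ℝ} {C : ℝ} (hsm : ContDiff ℝ 2 g)
    (hg : PerL (Lc n L) g) (hgr : ∀ y b, |fderiv ℝ g y (Pi.single b 1) - DK n L y b| ≤ C)
    (hinv : ∀ y, g (y ∘ shG n L N) = g y) (hsup : ∀ y, |g y - fS S L y| ≤ 1) :
    Pool.Agent.H75.FU.Slip F n L (shG n L N) g (4 * N * B + 3) := by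
  have : NeZero N := ⟨hN.ne'⟩
  obtain ⟨P, h1, h2, h3, h4, -, h6⟩ := Pool.Agent.H1.FU.slides_raw n hper hB m L hL hm
  subst hL
  have hC : ∀ t y, |g (P t y) - g y| ≤ 4 * N * B + 2 := by
    intro t y
    have e1 := abs_le.1 (h6 t y)
    have e2 := abs_le.1 (hsup (P t y))
    have e3 := abs_le.1 (hsup y)
    rw [abs_le]
    constructor <;> linarith [e1.1, e1.2, e2.1, e2.2, e3.1, e3.2]
  have h7 := slip_path h1 h2 h3 h4 (hsm.of_le (by norm_num)) hg hC
    (fun y => EqM_qK_shp y) (fun y => EqM_QK_shp y) hinv (fun l hl => ?_)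
    (s := ((m * N : ℕ) : ℝ) * B + 1) (fun y => ?_) hgr F
  · have e : 4 * (N : ℝ) * B + 2 + 1 = 4 * N * B + 3 := by ring
    rwa [e] at h7
  · obtain ⟨c, hc⟩ := hl
    funext a
    show l (shG n (m * N) N a) = l a
    obtain ⟨j, a⟩ := a
    show l (_, a) = l (j, a)
    rw [hc, hc]
  · have e1 := abs_le.1 (fS_near hB (m * N) y)
    have e2 := abs_le.1 (hsup y)
    rw [abs_le]
    constructor <;> linarith [e1.1, e1.2, e2.1, e2.2]

end Pool.Agent.H64.FU
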