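import Pool.Agent.H47.ST.Fine

/-!
# Project FULL, PSL: change of the domain

The path of linear maps of the phase slip lemma does not preserve the domain `q ≤ R`, and the
rounding moves `Q` a little. Here cocycles are extended to a larger domain (`dom_ext`), and
primitives are brought back to the original domain (`dom_back`, `dom_level`).
-/

set_option autoImplicit false
set_option linter.unusedSectionVars false

namespace Pool.Agent.H64.FU

open Filter Topology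
open Pool.Agent.H47.QG (sg)
open Pool.Agent.H47.ST

variable {ι : Type*} [Fintype ι] [DecidableEq ι]

/-- **Acyclic bands.** All vertices of `B \ A` are regular. -/
theorem acyc (F : Type*) [Field F] (L : AddSubgroup (ι → ℤ)) (q Q g : (ι → ℝ) → ℝ) (R a : ℝ)
    (hD : Dm L q Q R a) (hgp : PerL L g) (S : Set (ι → ℝ)) (hS : IsClosed S)
    (hSD : ∀ y ∈ S, q y ≤ R ∧ -a ≤ Q y)
    (A B : ℕ → Set (ι → ℤ)) (hA : ∀ m, 0 < m → Inv (lam L m) (A m))
    (hB : ∀ m, 0 < m → Inv (lam L m) (B m)) (hAB : ∀ m, A m ⊆ B m)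
    (hBA : ∀ m, 0 < m → ∀ v ∈ B m, v ∉ A m → ps m v ∈ S)
    (hloc : ∀ y ∈ S, ∃ (i : ι) (s : Bool), ∃ r > 0, ∀ m : ℕ, 0 < m → ∀ w : ι → ℤ,
      Cl y r (ps m w) → Cl y r (ps m (w + Pi.single i (sz s))) →
      (w ∈ A m → w + Pi.single i (sz s) ∈ A m) ∧ (w ∈ B m → w + Pi.single i (sz s) ∈ B m) ∧
        g (ps m (w + Pi.single i (sz s))) < g (ps m w)) :
    ∀ᶠ m : ℕ in atTop, ∀ j, HR F (lam L m) (B m) (A m) j 0 := by
  classical
  obtain ⟨K, hK, hK'⟩ := hD.cpt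
  have hcov : ∀ᶠ m : ℕ in atTop, ∀ v : ι → ℤ, ps m v ∈ K → v ∈ B m → v ∉ A m →
      RegV (A m) (B m) (fun v => g (ps m v)) v := by
    refine hK.induction_on
      (p := fun s => ∀ᶠ m : ℕ in atTop, ∀ v : ι → ℤ, ps m v ∈ s → v ∈ B m → v ∉ A m →
        RegV (A m) (B m) (fun v => g (ps m v)) v) ?_ ?_ ?_ ?_
    · exact Eventually.of_forall fun M v hv => absurd hv (Set.notMem_empty _)
    · intro s t hst ht
      filter_upwards [ht] with M hM v hv
      exact hM v (hst hv)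
    · intro s t hs ht
      filter_upwards [hs, ht] with M hM hM' v hv
      rcases hv with hv | hv
      · exact hM v hv
      · exact hM' v hv
    · intro y _
      by_cases hy : y ∈ S
      · obtain ⟨i, s, r, hr, h⟩ := hloc y hy
        obtain ⟨r', hr', h'⟩ := FineR_gen A B (fun m v => g (ps m v)) y i s r hr h
        exact ⟨{x | Cl y r' x}, mem_nhdsWithin_of_mem_nhds (Fine_nhds y hr'), h'⟩
      · refine ⟨Sᶜ, mem_nhdsWithin_of_mem_nhds (hS.isOpen_compl.mem_nhds hy), ?_⟩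
        filter_upwards [eventually_gt_atTop 0] with m hm v hv h1 h2
        exact absurd (hBA m hm v h1 h2) hv
  filter_upwards [hcov, eventually_ge_atTop 2] with m hm hm2 j
  have hm0 : 0 < m := by omega
  have hfin : FinMod (lam L m) (B m) (A m) := by
    obtain ⟨C, hC⟩ := hK.isBounded.exists_norm_le
    refine ⟨Finset.Icc (fun _ => -(⌈(m : ℝ) * C⌉)) (fun _ => ⌈(m : ℝ) * C⌉), fun v hv hv' => ?_⟩
    obtain ⟨h1, h2⟩ := hSD _ (hBA m hm0 v hv hv')
    obtain ⟨l, hl, hlK⟩ := hK' _ h1 h2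
    refine ⟨(m : ℤ) • l, ⟨l, hl, rfl⟩, ?_⟩
    rw [← Fine_ps_add hm0] at hlK
    have h3 := hC _ hlK
    have hm' : (0 : ℝ) < m := by exact_mod_cast hm0
    have h4 : ∀ i, |((v + (m : ℤ) • l) i : ℝ)| ≤ m * C := by
      intro i
      have h5 := (norm_le_pi_norm (ps m (v + (m : ℤ) • l)) i).trans h3
      rw [Real.norm_eq_abs, ps, abs_div, Nat.abs_cast, div_le_iff₀ hm'] at h5
      rw [mul_comm]
      exact h5
    rw [Finset.mem_Icc]
    constructor
    · intro i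
      have h5 := (abs_le.1 (h4 i)).1
      have h6 : ((-(⌈(m : ℝ) * C⌉) : ℤ) : ℝ) ≤ ((v + (m : ℤ) • l) i : ℝ) := by
        push_cast
        have := Int.le_ceil ((m : ℝ) * C)
        have h7 : -(⌈(m : ℝ) * C⌉ : ℝ) ≤ -((m : ℝ) * C) := by linarith
        refine h7.trans ?_
        simpa using h5
      exact_mod_cast h6
    · intro i
      have h5 := (abs_le.1 (h4 i)).2
      have h6 : ((v + (m : ℤ) • l) i : ℝ) ≤ ((⌈(m : ℝ) * C⌉ : ℤ) : ℝ) :=
        h5.trans (Int.le_ceil _)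
      exact_mod_cast h6
  have h1 := band_HR (F := F) (lam L m) (lam_wide L hm2) (A m) (B m) (hAB m) (hA m hm0)
    (hB m hm0) hfin (fun v => g (ps m v)) (fun l hl v => Fine_inv hgp hm0 hl v) ∅
    (fun _ _ => true) (fun v hv hv' => Or.inl ?_) j
  · simpa using h1
  · have h2 := hBA m hm0 v hv hv'
    obtain ⟨h3, h4⟩ := hSD _ h2
    obtain ⟨l, hl, hlK⟩ := hK' _ h3 h4
    rw [← Fine_ps_add hm0] at hlK
    have hl' : (m : ℤ) • l ∈ lam L m := ⟨l, hl, rfl⟩
    exact Fine_regV (hA m hm0) (hB m hm0) (fun l hl v => Fine_inv hgp hm0 hl v) hl'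
      (hm _ hlK ((hB m hm0 _ hl' v).1 hv) fun h => hv' ((hA m hm0 _ hl' v).2 h))

/-- uniform continuity on the domain: values at adjacent vertices are close -/
theorem unif {L : AddSubgroup (ι → ℤ)} {q Q h : (ι → ℝ) → ℝ} {R a : ℝ} (hD : Dm L q Q R a)
    (hh : Continuous h) (hp : PerL L h) {ε : ℝ} (hε : 0 < ε) :
    ∀ᶠ m : ℕ in atTop, ∀ v w : ι → ℤ, q (ps m v) ≤ R → -a ≤ Q (ps m v) →
      (∀ i, |w i - v i| ≤ 1) → |h (ps m w) - h (ps m v)| < ε := by
  obtain ⟨K, hK, hK'⟩ := hD.cpt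
  have h1 : ∃ δ > 0, ∀ x ∈ K, ∀ y, dist y x < δ → |h y - h x| < ε := by
    have h2 : ∀ x ∈ K, ∃ δ > 0, ∀ y, dist y x < 2 * δ → |h y - h x| < ε / 2 := by
      intro x _
      obtain ⟨δ, hδ, h3⟩ := Metric.continuousAt_iff.1 (hh.continuousAt (x := x)) (ε / 2)
        (half_pos hε)
      refine ⟨δ / 2, half_pos hδ, fun y hy => ?_⟩
      have h4 := h3 (x := y) (by linarith)
      rwa [Real.dist_eq] at h4
    choose! δ hδ h3 using h2
    obtain ⟨t, ht, hcov⟩ := hK.elim_nhds_subcover (fun x => Metric.ball x (δ x))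
      fun x hx => Metric.ball_mem_nhds x (hδ x hx)
    rcases t.eq_empty_or_nonempty with rfl | hne
    · refine ⟨1, one_pos, fun x hx => ?_⟩
      have := hcov hx
      simp at this
    · obtain ⟨x0, hx0, hmin⟩ := t.exists_min_image δ hne
      refine ⟨δ x0, hδ x0 (ht x0 hx0), fun x hx y hy => ?_⟩
      obtain ⟨z, hz, hxz⟩ := Set.mem_iUnion₂.1 (hcov hx)
      have h4 := hmin z hz
      have h5 : dist x z < δ z := hxz
      have h6 := h3 z (ht z hz) x (by linarith [hδ z (ht z hz)])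
      have h7 := h3 z (ht z hz) y (by linarith [dist_triangle y x z])
      have e : h y - h x = (h y - h z) - (h x - h z) := by ring
      rw [e]
      calc |(h y - h z) - (h x - h z)| ≤ |h y - h z| + |h x - h z| := abs_sub _ _
        _ < ε := by linarith
  obtain ⟨δ, hδ, h2⟩ := h1
  obtain ⟨n, hn⟩ := exists_nat_gt (1 / δ)
  filter_upwards [eventually_ge_atTop (max n 1)] with m hm v w hq hQ hvw
  have hm0 : 0 < m := lt_of_lt_of_le one_pos ((le_max_right _ _).trans hm)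
  have hm' : (0 : ℝ) < m := by exact_mod_cast hm0
  have hmn : (n : ℝ) ≤ m := by exact_mod_cast (le_max_left _ _).trans hm
  obtain ⟨l, hl, hlK⟩ := hK' _ hq hQ
  have h3 : ∀ v : ι → ℤ, h (ps m v) = h (ps m v + rl l) := fun v => (hp l hl _).symm
  rw [h3 v, h3 w]
  refine h2 _ hlK _ ?_
  rw [dist_add_right, dist_pi_lt_iff hδ]
  intro i
  rw [Real.dist_eq]
  have h4 : ps m w i - ps m v i = ((w i - v i : ℤ) : ℝ) / m := by
    simp only [ps]
    push_cast
    ring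
  rw [h4, abs_div, abs_of_pos hm', ← Int.cast_abs]
  have h5 : ((|w i - v i| : ℤ) : ℝ) ≤ 1 := by exact_mod_cast hvw i
  calc ((|w i - v i| : ℤ) : ℝ) / m ≤ 1 / m := by gcongr
    _ < δ := by
      rw [div_lt_iff₀ hm']
      have h6 := hn.trans_le hmn
      rw [div_lt_iff₀ hδ] at h6
      linarith

omit [DecidableEq ι] in
theorem adj_le {v w : ι → ℤ} (h : Adj v w) : ∀ i, |w i - v i| ≤ 1 := by
  intro i
  rcases h with ⟨h1, h2⟩ | ⟨h1, h2⟩
  · have h3 := h1 i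
    have h4 := h2 i
    simp only [Pi.add_apply, Pi.one_apply] at h4
    rw [abs_le]
    constructor <;> linarith
  · have h3 := h1 i
    have h4 := h2 i
    simp only [Pi.add_apply, Pi.one_apply] at h4
    rw [abs_le]
    constructor <;> linarith

variable {F : Type*} [Field F]

open Classical in
/-- restriction of a cochain to the simplices with vertices in `B` -/
theorem cut_mem {L : AddSubgroup (ι → ℤ)} {X A B A' : Set (ι → ℤ)} (hB : Inv L B) {j : ℕ}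
    {c : Co ι F} (hc : c ∈ co (F := F) L X A j)
    (hA : ∀ σ, In X σ → In B σ → ¬ (∀ v ∈ σ, v ∈ A) → ¬ (∀ v ∈ σ, v ∈ A')) :
    cut (In B) c ∈ co (F := F) L B A' j := by
  refine ⟨fun l hl σ => ?_, fun σ h => ?_⟩
  · rw [cut_apply, cut_apply]
    by_cases h : In B σ
    · rw [if_pos h, if_pos ((CellA_tr_In hB hl).2 h), hc.1 l hl]
    · rw [if_neg h, if_neg fun h1 => h ((CellA_tr_In hB hl).1 h1)]
  · rw [cut_apply] at h
    split_ifs at h with h1
    · obtain ⟨h2, h3, h4⟩ := hc.2 σ h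
      exact ⟨h1, hA σ h2 h1 h3, h4⟩
    · exact absurd rfl h

/-- a cochain of a subset is a cochain of the whole set -/
theorem co_sub {L : AddSubgroup (ι → ℤ)} {X Y A : Set (ι → ℤ)} (h : X ⊆ Y) {j : ℕ}
    {c : Co ι F} (hc : c ∈ co (F := F) L X A j) : c ∈ co (F := F) L Y A j :=
  ⟨hc.1, fun σ hσ => ⟨⟨(hc.2 σ hσ).1.1, fun v hv => h ((hc.2 σ hσ).1.2 v hv)⟩, (hc.2 σ hσ).2⟩⟩

omit [DecidableEq ι] in
theorem in_mono {X Y : Set (ι → ℤ)} (h : X ⊆ Y) {σ : Finset (ι → ℤ)} (hσ : In X σ) : In Y σ :=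
  ⟨hσ.1, fun v hv => h (hσ.2 v hv)⟩

/-- exactness from rank zero -/
theorem exact_of_HR {L : AddSubgroup (ι → ℤ)} {B A : Set (ι → ℤ)} {j : ℕ}
    (h : HR F L B A j 0) {x : Co ι F} (hx : x ∈ co (F := F) L B A (j + 1)) (hdx : dX B x = 0) :
    ∃ y ∈ co (F := F) L B A j, x = dX B y := by
  obtain ⟨ℓ, h⟩ := h
  obtain ⟨y, hy, h1⟩ := h x hx (by rw [hdx]; exact Submodule.zero_mem _)
    (Subsingleton.elim _ _)
  rw [Submodule.mem_bot, sub_eq_zero] at h1
  exact ⟨y, hy, h1⟩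

/-- the general extension step: `e` vanishes on the simplices in `B` -/
theorem co_of_vanish {L : AddSubgroup (ι → ℤ)} {X A B : Set (ι → ℤ)} {j : ℕ}
    {c : Co ι F} (hc : c ∈ co (F := F) L X A j) (h0 : ∀ σ, In B σ → c σ = 0) :
    c ∈ co (F := F) L X B j :=
  ⟨hc.1, fun σ hσ => ⟨(hc.2 σ hσ).1, fun h => hσ (h0 σ ⟨(hc.2 σ hσ).1.1, h⟩), (hc.2 σ hσ).2.2⟩⟩

/-- common decreasing directions at the points with `R₂ ≤ q ≤ R` -/
def DirQ (q Q f : (ι → ℝ) → ℝ) (R₂ R a : ℝ) : Prop :=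
  ∀ y, R₂ ≤ q y → q y ≤ R → -a ≤ Q y → ∃ (i : ι) (s : Bool),
    sg s * fderiv ℝ f y (Pi.single i 1) < 0 ∧ sg s * fderiv ℝ q y (Pi.single i 1) < 0 ∧
      sg s * fderiv ℝ Q y (Pi.single i 1) < 0

/-- common decreasing directions at the points with `-a' ≤ Q ≤ -a` -/
def DirA (q Q f : (ι → ℝ) → ℝ) (R a a' : ℝ) : Prop :=
  ∀ y, q y ≤ R → -a' ≤ Q y → Q y ≤ -a → ∃ (i : ι) (s : Bool),
    sg s * fderiv ℝ f y (Pi.single i 1) < 0 ∧ sg s * fderiv ℝ q y (Pi.single i 1) < 0 ∧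
      sg s * fderiv ℝ Q y (Pi.single i 1) < 0

theorem dirQ_of_Bd {q Q f : (ι → ℝ) → ℝ} {R₂ R a : ℝ}
    (h : ∀ R' ∈ Set.Icc R₂ R, Bd q Q R' a f) : DirQ q Q f R₂ R a := by
  intro y h1 h2 h3
  exact h (q y) ⟨h1, h2⟩ y le_rfl h3 (Or.inl rfl)

theorem dirA_of_Bd {q Q f : (ι → ℝ) → ℝ} {R a a' : ℝ}
    (h : ∀ a'' ∈ Set.Icc a a', Bd q Q R a'' f) : DirA q Q f R a a' := by
  intro y h1 h2 h3
  exact h (-Q y) ⟨by linarith, by linarith⟩ y h1 (by rw [neg_neg]) (Or.inr (neg_neg _).symm)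

/-- the inner part of the domain together with the low part -/
def Bm (q Q f : (ι → ℝ) → ℝ) (R R₂ a b : ℝ) (m : ℕ) : Set (ι → ℤ) :=
  {v | q (ps m v) ≤ R ∧ (q (ps m v) ≤ R₂ ∨ Q (ps m v) ≤ -a ∨ f (ps m v) ≤ b)}

theorem Bm_inv {L : AddSubgroup (ι → ℤ)} {q Q f : (ι → ℝ) → ℝ} (hq : PerL L q) (hQ : PerL L Q)
    (hf : PerL L f) (R R₂ a b : ℝ) {m : ℕ} (hm : 0 < m) :
    Inv (lam L m) (Bm q Q f R R₂ a b m) := by
  intro l hl v
  simp only [Bm, Set.mem_ofPred_eq, Fine_inv hq hm hl, Fine_inv hQ hm hl, Fine_inv hf hm hl]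

/-- The shell `R₂ < q ≤ R` is acyclic relative to the low part. -/
theorem acyc_shell (F : Type*) [Field F] (L : AddSubgroup (ι → ℤ)) (q Q f : (ι → ℝ) → ℝ)
    (R R₂ a b : ℝ) (hD : Dm L q Q R a) (hf : ContDiff ℝ 1 f) (hfp : PerL L f)
    (hdir : DirQ q Q f R₂ R a) :
    ∀ᶠ m : ℕ in atTop, ∀ j, HR F (lam L m) (Xm q R m) (Bm q Q f R R₂ a b m) j 0 := by
  refine acyc F L q Q q R a hD hD.qp
    {y | R₂ ≤ q y ∧ q y ≤ R ∧ -a ≤ Q y}
    (IsClosed.inter (isClosed_le continuous_const hD.q1.continuous)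
      (IsClosed.inter (isClosed_le hD.q1.continuous continuous_const)
        (isClosed_le continuous_const hD.Q1.continuous)))
    (fun y hy => ⟨hy.2.1, hy.2.2⟩)
    (fun m => Bm q Q f R R₂ a b m) (fun m => Xm q R m)
    (fun m hm => Bm_inv hD.qp hD.Qp hfp R R₂ a b hm) (fun m hm => Xm_inv hD.qp R hm)
    (fun m v hv => hv.1) (fun m _ v hv hv' => ?_) (fun y hy => ?_)
  · have h1 : q (ps m v) ≤ R := hv
    have h2 : ¬ (q (ps m v) ≤ R₂ ∨ Q (ps m v) ≤ -a ∨ f (ps m v) ≤ b) := fun h => hv' ⟨h1, h⟩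
    push Not at h2
    exact ⟨h2.1.le, h1, h2.2.1.le⟩
  · obtain ⟨i, s, h1, h2, h3⟩ := hdir y hy.1 hy.2.1 hy.2.2
    obtain ⟨r1, hr1, H1⟩ := fine_step f hf y i s h1
    obtain ⟨r2, hr2, H2⟩ := fine_step q hD.q1 y i s h2
    obtain ⟨r3, hr3, H3⟩ := fine_step Q hD.Q1 y i s h3
    refine ⟨i, s, min r1 (min r2 r3), lt_min hr1 (lt_min hr2 hr3), fun m hm w hw hw' => ?_⟩
    have k1 := H1 m hm w (FineR_mono (min_le_left _ _) hw) (FineR_mono (min_le_left _ _) hw')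
    have k2 := H2 m hm w (FineR_mono ((min_le_right _ _).trans (min_le_left _ _)) hw)
      (FineR_mono ((min_le_right _ _).trans (min_le_left _ _)) hw')
    have k3 := H3 m hm w (FineR_mono ((min_le_right _ _).trans (min_le_right _ _)) hw)
      (FineR_mono ((min_le_right _ _).trans (min_le_right _ _)) hw')
    refine ⟨fun h => ⟨k2.le.trans h.1, ?_⟩, fun h => ?_, k2⟩
    · rcases h.2 with h | h | h
      · exact Or.inl (k2.le.trans h)
      · exact Or.inr (Or.inl (k3.le.trans h))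
      · exact Or.inr (Or.inr (k1.le.trans h))
    · have h' : q (ps m w) ≤ R := h
      exact k2.le.trans h'

/-- The band `-a' < Q ≤ -a` is acyclic relative to the low part. -/
theorem acyc_low (F : Type*) [Field F] (L : AddSubgroup (ι → ℤ)) (q Q f : (ι → ℝ) → ℝ)
    (R a a' b : ℝ) (haa : a ≤ a') (hD : Dm L q Q R a') (hf : ContDiff ℝ 1 f) (hfp : PerL L f)
    (hdir : DirA q Q f R a a') :
    ∀ᶠ m : ℕ in atTop, ∀ j, HR F (lam L m) (Lv q Q f R a b m) (Lv q Q f R a' b m) j 0 := by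
  refine acyc F L q Q Q R a' hD hD.Qp
    {y | q y ≤ R ∧ -a' ≤ Q y ∧ Q y ≤ -a}
    (IsClosed.inter (isClosed_le hD.q1.continuous continuous_const)
      (IsClosed.inter (isClosed_le continuous_const hD.Q1.continuous)
        (isClosed_le hD.Q1.continuous continuous_const)))
    (fun y hy => ⟨hy.1, hy.2.1⟩)
    (fun m => Lv q Q f R a' b m) (fun m => Lv q Q f R a b m)
    (fun m hm => Lv_inv hD.qp hD.Qp hfp R a' b hm) (fun m hm => Lv_inv hD.qp hD.Qp hfp R a b hm)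
    (fun m v hv => ⟨hv.1, hv.2.imp (fun h => h.trans (by linarith)) id⟩)
    (fun m _ v hv hv' => ?_) (fun y hy => ?_)
  · have h2 : ¬ (Q (ps m v) ≤ -a' ∨ f (ps m v) ≤ b) := fun h => hv' ⟨hv.1, h⟩
    push Not at h2
    refine ⟨hv.1, h2.1.le, ?_⟩
    rcases hv.2 with h | h
    · exact h
    · exact absurd h (not_le.2 h2.2)
  · obtain ⟨i, s, h1, h2, h3⟩ := hdir y hy.1 hy.2.1 hy.2.2
    obtain ⟨r1, hr1, H1⟩ := fine_step f hf y i s h1
    obtain ⟨r2, hr2, H2⟩ := fine_step q hD.q1 y i s h2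
    obtain ⟨r3, hr3, H3⟩ := fine_step Q hD.Q1 y i s h3
    refine ⟨i, s, min r1 (min r2 r3), lt_min hr1 (lt_min hr2 hr3), fun m hm w hw hw' => ?_⟩
    have k1 := H1 m hm w (FineR_mono (min_le_left _ _) hw) (FineR_mono (min_le_left _ _) hw')
    have k2 := H2 m hm w (FineR_mono ((min_le_right _ _).trans (min_le_left _ _)) hw)
      (FineR_mono ((min_le_right _ _).trans (min_le_left _ _)) hw')
    have k3 := H3 m hm w (FineR_mono ((min_le_right _ _).trans (min_le_right _ _)) hw)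
      (FineR_mono ((min_le_right _ _).trans (min_le_right _ _)) hw')
    exact ⟨fun h => ⟨k2.le.trans h.1, h.2.imp (fun h => k3.le.trans h) fun h => k1.le.trans h⟩,
      fun h => ⟨k2.le.trans h.1, h.2.imp (fun h => k3.le.trans h) fun h => k1.le.trans h⟩, k3⟩

/-- **Extension of cocycles** to a larger domain. -/
theorem dom_ext (F : Type*) [Field F] (L : AddSubgroup (ι → ℤ)) (q Q f : (ι → ℝ) → ℝ)
    (R₂ R R' a b : ℝ) (h2 : R₂ < R) (hR : R ≤ R') (hD : Dm L q Q R' a) (hf : ContDiff ℝ 1 f)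
    (hfp : PerL L f) (hdir : DirQ q Q f R₂ R' a) :
    ∀ᶠ m : ℕ in atTop, ∀ j, ∀ u ∈ co (F := F) (lam L m) (Xm q R m) (Lv q Q f R a b m) j,
      dX (Xm q R m) u = 0 →
      ∃ u' ∈ co (F := F) (lam L m) (Xm q R' m) (Lv q Q f R' a b m) j,
        dX (Xm q R' m) u' = 0 ∧ ∀ σ, In (Xm q R₂ m) σ → u' σ = u σ := by
  classical
  filter_upwards [acyc_shell F L q Q f R' R₂ a b hD hf hfp hdir,
    unif hD hD.q1.continuous hD.qp (sub_pos.2 h2), eventually_gt_atTop 0] with m hac hun hm j u hu hdu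
  have hinv := Bm_inv hD.qp hD.Qp hfp R' R₂ a b hm
  have hXi := Xm_inv hD.qp R' hm
  -- simplices of the inner part
  have hin : ∀ σ, In (Bm q Q f R' R₂ a b m) σ → ¬ (∀ v ∈ σ, v ∈ Lv q Q f R' a b m) →
      In (Xm q R m) σ := by
    intro σ hσ hn
    push Not at hn
    obtain ⟨w, hw, hw'⟩ := hn
    have h3 := hσ.2 w hw
    have h4 : ¬ (Q (ps m w) ≤ -a ∨ f (ps m w) ≤ b) := fun h => hw' ⟨h3.1, h⟩
    have h5 : q (ps m w) ≤ R₂ := h3.2.resolve_right h4
    push Not at h4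
    refine ⟨hσ.1, fun v hv => ?_⟩
    have h6 := hun w v h3.1 h4.1.le (adj_le (hσ.1 w hw v hv))
    have h7 := (abs_lt.1 h6).2
    show q (ps m v) ≤ R
    linarith
  have hu0 : cut (In (Bm q Q f R' R₂ a b m)) u ∈
      co (F := F) (lam L m) (Bm q Q f R' R₂ a b m) (Lv q Q f R' a b m) j := by
    refine cut_mem hinv hu fun σ h3 h4 h5 h6 => h5 fun v hv => ?_
    exact ⟨h3.2 v hv, (h6 v hv).2⟩
  have hu1 := co_sub (Y := Xm q R' m) (fun v hv => hv.1) hu0
  set u0 := cut (In (Bm q Q f R' R₂ a b m)) u with hu0def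
  -- the coboundary vanishes on the inner part
  have hvan : ∀ σ, In (Bm q Q f R' R₂ a b m) σ → dX (Xm q R' m) u0 σ = 0 := by
    intro σ hσ
    have hσX : In (Xm q R' m) σ := in_mono (X := Bm q Q f R' R₂ a b m) (fun v hv => hv.1) hσ
    rw [dX_apply, if_pos hσX]
    by_cases hl : ∀ v ∈ σ, v ∈ Lv q Q f R' a b m
    · refine Finset.sum_eq_zero fun v hv => ?_
      have h3 : u0 (σ.erase v) = 0 := by
        by_contra h4
        exact (hu0.2 _ h4).2.1 fun w hw => hl w (Finset.mem_of_mem_erase hw)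
      rw [h3, mul_zero]
    · have h3 := congrFun hdu σ
      rw [dX_apply, if_pos (hin σ hσ hl)] at h3
      rw [Pi.zero_apply] at h3
      rw [← h3]
      refine Finset.sum_congr rfl fun v hv => ?_
      rw [hu0def, cut_apply, if_pos (CellA_In_erase hσ v)]
  have he := co_of_vanish (dX_mem hXi hu1) hvan
  obtain ⟨y, hy, hy'⟩ := exact_of_HR (hac j) he (dX_dX _ _)
  have hLB : Lv q Q f R' a b m ⊆ Bm q Q f R' R₂ a b m := fun v hv => ⟨hv.1, Or.inr hv.2⟩
  refine ⟨u0 - y, Submodule.sub_mem _ hu1 (co_anti hLB j hy), ?_, fun σ hσ => ?_⟩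
  · rw [map_sub, hy', sub_self]
  · have h3 : In (Bm q Q f R' R₂ a b m) σ := ⟨hσ.1, fun v hv => by
      have h5 : q (ps m v) ≤ R₂ := hσ.2 v hv
      exact ⟨h5.trans (h2.le.trans hR), Or.inl h5⟩⟩
    have h4 : y σ = 0 := by
      by_contra h4
      exact (hy.2 _ h4).2.1 h3.2
    rw [Pi.sub_apply, h4, sub_zero, hu0def, cut_apply, if_pos h3]

/-- **Primitives on a smaller domain** give primitives on the domain. -/
theorem dom_back (F : Type*) [Field F] (L : AddSubgroup (ι → ℤ)) (q Q f : (ι → ℝ) → ℝ)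
    (R₂ R₁ R a b : ℝ) (h21 : R₂ < R₁) (_h1 : R₁ ≤ R) (hD : Dm L q Q R a) (hf : ContDiff ℝ 1 f)
    (hfp : PerL L f) (hdir : DirQ q Q f R₂ R a) :
    ∀ᶠ m : ℕ in atTop, ∀ j, ∀ w ∈ co (F := F) (lam L m) (Xm q R m) (Lv q Q f R a b m) (j + 1),
      dX (Xm q R m) w = 0 →
      ∀ β ∈ co (F := F) (lam L m) (Xm q R₁ m) (Lv q Q f R₁ a b m) j,
        (∀ σ, In (Xm q R₁ m) σ → w σ = dX (Xm q R₁ m) β σ) →
      ∃ β' ∈ co (F := F) (lam L m) (Xm q R m) (Lv q Q f R a b m) j, w = dX (Xm q R m) β' := by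
  classical
  filter_upwards [acyc_shell F L q Q f R R₂ a b hD hf hfp hdir,
    unif hD hD.q1.continuous hD.qp (sub_pos.2 h21), eventually_gt_atTop 0]
    with m hac hun hm j w hw hdw β hβ hwβ
  have hinv := Bm_inv hD.qp hD.Qp hfp R R₂ a b hm
  have hXi := Xm_inv hD.qp R hm
  have hin : ∀ σ, In (Bm q Q f R R₂ a b m) σ → ¬ (∀ v ∈ σ, v ∈ Lv q Q f R a b m) →
      In (Xm q R₁ m) σ := by
    intro σ hσ hn
    push Not at hn
    obtain ⟨w, hw, hw'⟩ := hn
    have h3 := hσ.2 w hw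
    have h4 : ¬ (Q (ps m w) ≤ -a ∨ f (ps m w) ≤ b) := fun h => hw' ⟨h3.1, h⟩
    have h5 : q (ps m w) ≤ R₂ := h3.2.resolve_right h4
    push Not at h4
    refine ⟨hσ.1, fun v hv => ?_⟩
    have h6 := hun w v h3.1 h4.1.le (adj_le (hσ.1 w hw v hv))
    have h7 := (abs_lt.1 h6).2
    show q (ps m v) ≤ R₁
    linarith
  have hb0 : cut (In (Bm q Q f R R₂ a b m)) β ∈
      co (F := F) (lam L m) (Bm q Q f R R₂ a b m) (Lv q Q f R a b m) j := by
    refine cut_mem hinv hβ fun σ h3 h4 h5 h6 => h5 fun v hv => ?_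
    exact ⟨h3.2 v hv, (h6 v hv).2⟩
  have hb1 := co_sub (Y := Xm q R m) (fun v hv => hv.1) hb0
  set b0 := cut (In (Bm q Q f R R₂ a b m)) β with hb0def
  have hvan : ∀ σ, In (Bm q Q f R R₂ a b m) σ → (w - dX (Xm q R m) b0) σ = 0 := by
    intro σ hσ
    have hσX : In (Xm q R m) σ := in_mono (X := Bm q Q f R R₂ a b m) (fun v hv => hv.1) hσ
    rw [Pi.sub_apply, dX_apply, if_pos hσX]
    by_cases hl : ∀ v ∈ σ, v ∈ Lv q Q f R a b m
    · have h3 : w σ = 0 := by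
        by_contra h4
        exact (hw.2 _ h4).2.1 hl
      rw [h3, zero_sub, neg_eq_zero]
      refine Finset.sum_eq_zero fun v hv => ?_
      have h3 : b0 (σ.erase v) = 0 := by
        by_contra h4
        exact (hb0.2 _ h4).2.1 fun w hw => hl w (Finset.mem_of_mem_erase hw)
      rw [h3, mul_zero]
    · have h3 := hin σ hσ hl
      rw [hwβ σ h3, dX_apply, if_pos h3, sub_eq_zero]
      refine Finset.sum_congr rfl fun v hv => ?_
      rw [hb0def, cut_apply, if_pos (CellA_In_erase hσ v)]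
  have he := co_of_vanish (Submodule.sub_mem _ hw (dX_mem hXi hb1)) hvan
  obtain ⟨y, hy, hy'⟩ := exact_of_HR (hac j) he (by rw [map_sub, hdw, dX_dX, sub_self])
  have hLB : Lv q Q f R a b m ⊆ Bm q Q f R R₂ a b m := fun v hv => ⟨hv.1, Or.inr hv.2⟩
  refine ⟨b0 + y, Submodule.add_mem _ hb1 (co_anti hLB j hy), ?_⟩
  rw [map_add, ← hy', add_sub_cancel]

/-- **Primitives vanishing only on a lower set** `Q ≤ -a'` can be improved. -/
theorem dom_level (F : Type*) [Field F] (L : AddSubgroup (ι → ℤ)) (q Q f : (ι → ℝ) → ℝ)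
    (R a a' b : ℝ) (haa : a ≤ a') (hD : Dm L q Q R a') (hf : ContDiff ℝ 1 f)
    (hfp : PerL L f) (hdir : DirA q Q f R a a') :
    ∀ᶠ m : ℕ in atTop, ∀ j, ∀ w ∈ co (F := F) (lam L m) (Xm q R m) (Lv q Q f R a b m) (j + 1),
      ∀ β ∈ co (F := F) (lam L m) (Xm q R m) (Lv q Q f R a' b m) j,
        w = dX (Xm q R m) β →
      ∃ β' ∈ co (F := F) (lam L m) (Xm q R m) (Lv q Q f R a b m) j, w = dX (Xm q R m) β' := by
  classical
  filter_upwards [acyc_low F L q Q f R a a' b haa hD hf hfp hdir, eventually_gt_atTop 0]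
    with m hac hm j w hw β hβ hwβ
  rcases j with _ | j
  · rw [co_zero, Submodule.mem_bot] at hβ
    rw [hβ, map_zero] at hwβ
    exact ⟨0, Submodule.zero_mem _, by rw [hwβ, map_zero]⟩
  have hinv := Lv_inv hD.qp hD.Qp hfp R a b hm
  have hXi := Xm_inv hD.qp R hm
  have hsub : Lv q Q f R a' b m ⊆ Lv q Q f R a b m :=
    fun v hv => ⟨hv.1, hv.2.imp (fun h => h.trans (by linarith)) id⟩
  have hLX : Lv q Q f R a b m ⊆ Xm q R m := fun v hv => hv.1
  have hb0 : cut (In (Lv q Q f R a b m)) β ∈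
      co (F := F) (lam L m) (Lv q Q f R a b m) (Lv q Q f R a' b m) (j + 1) :=
    cut_mem hinv hβ fun σ _ _ h => h
  -- closed
  have hcl : dX (Lv q Q f R a b m) (cut (In (Lv q Q f R a b m)) β) = 0 := by
    ext σ
    rw [dX_apply, Pi.zero_apply]
    split_ifs with h
    · have h1 : w σ = 0 := by
        by_contra h4
        exact (hw.2 _ h4).2.1 h.2
      rw [hwβ, dX_apply, if_pos (in_mono hLX h)] at h1
      rw [← h1]
      refine Finset.sum_congr rfl fun v hv => ?_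
      rw [cut_apply, if_pos (CellA_In_erase h v)]
    · rfl
  obtain ⟨y, hy, hy'⟩ := exact_of_HR (hac j) hb0 hcl
  have hyX := co_sub hLX hy
  have h1 : ∀ σ, In (Lv q Q f R a b m) σ → (β - dX (Xm q R m) y) σ = 0 := by
    intro σ hσ
    have h2 := congrFun hy' σ
    rw [cut_apply, if_pos hσ, dX_apply, if_pos hσ] at h2
    rw [Pi.sub_apply, dX_apply, if_pos (in_mono hLX hσ), h2, sub_self]
  refine ⟨β - dX (Xm q R m) y, co_of_vanish (Submodule.sub_mem _ hβ (dX_mem hXi hyX)) h1, ?_⟩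
  rw [map_sub, dX_dX, sub_zero, hwβ]

end Pool.Agent.H64.FU
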