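import Pool.Agent.H64.FU.Dom

/-!
# Project FULL, PSL: exact extension of cocycles to a larger domain

`dom_exact`: a closed cochain of `(X_R, Lv b)` is the restriction of a closed cochain of
`(X_R', {f ≤ b})`. The kernel of the restriction is acyclic (`ker_exact`).
-/

set_option autoImplicit false
set_option linter.unusedSectionVars false

namespace Pool.Agent.H64.FU

open Filter Topology
open Pool.Agent.H47.QG (sg)
open Pool.Agent.H47.ST

variable {ι : Type*} [Fintype ι] [DecidableEq ι]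

/-- The cochains which vanish on the simplices of `Xh` and on the simplices of `A` form an
acyclic complex if `(X', Xh)` and `(A ∩ X', A ∩ Xh)` are acyclic. -/
theorem ker_exact {F : Type*} [Field F] {L : AddSubgroup (ι → ℤ)} {X' Xh A : Set (ι → ℤ)}
    (hX' : Inv L X') (hA : Inv L A) (h1 : ∀ j, HR F L X' Xh j 0)
    (h2 : ∀ j, HR F L (A ∩ X') (A ∩ Xh) j 0) {j : ℕ} {z : Co ι F}
    (hz : z ∈ co (F := F) L X' Xh (j + 1)) (hzA : ∀ σ, In A σ → z σ = 0) (hdz : dX X' z = 0) :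
    ∃ y ∈ co (F := F) L X' Xh j, (∀ σ, In A σ → y σ = 0) ∧ z = dX X' y := by
  classical
  have hAX : Inv L (A ∩ X') := fun l hl v => and_congr (hA l hl v) (hX' l hl v)
  obtain ⟨y1, hy1, hzy⟩ := exact_of_HR (h1 j) hz hdz
  rcases j with _ | j
  · rw [co_zero, Submodule.mem_bot] at hy1
    exact ⟨0, Submodule.zero_mem _, fun _ _ => rfl, by rw [hzy, hy1]⟩
  have hc0 : cut (In (A ∩ X')) y1 ∈ co (F := F) L (A ∩ X') (A ∩ Xh) (j + 1) :=
    cut_mem hAX hy1 fun σ _ _ hn h => hn fun v hv => (h v hv).2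
  have hAX' : (A ∩ X') ⊆ X' := fun v hv => hv.2
  have hAA : (A ∩ X') ⊆ A := fun v hv => hv.1
  have hcl : dX (A ∩ X') (cut (In (A ∩ X')) y1) = 0 := by
    ext σ
    rw [dX_apply, Pi.zero_apply]
    split_ifs with h
    · have h3 := hzA σ (in_mono hAA h)
      rw [hzy, dX_apply, if_pos (in_mono hAX' h)] at h3
      rw [← h3]
      refine Finset.sum_congr rfl fun v hv => ?_
      rw [cut_apply, if_pos (CellA_In_erase h v)]
    · rfl
  obtain ⟨y2, hy2, hy2'⟩ := exact_of_HR (h2 j) hc0 hcl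
  have hy2X : y2 ∈ co (F := F) L X' Xh j :=
    ⟨hy2.1, fun σ hσ => by
      obtain ⟨h3, h4, h5⟩ := hy2.2 σ hσ
      exact ⟨in_mono hAX' h3, fun h => h4 fun v hv => ⟨(h3.2 v hv).1, h v hv⟩, h5⟩⟩
  refine ⟨y1 - dX X' y2, Submodule.sub_mem _ hy1 (dX_mem hX' hy2X), fun σ hσ => ?_, ?_⟩
  · by_cases h : In X' σ
    · have h3 : In (A ∩ X') σ := ⟨h.1, fun v hv => ⟨hσ.2 v hv, h.2 v hv⟩⟩
      have h4 := congrFun hy2' σ
      rw [cut_apply, if_pos h3, dX_apply, if_pos h3] at h4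
      rw [Pi.sub_apply, dX_apply, if_pos h, h4, sub_self]
    · by_contra h4
      exact h ((Submodule.sub_mem _ hy1 (dX_mem hX' hy2X)).2 σ h4).1
  · rw [map_sub, dX_dX, sub_zero, hzy]

/-- the part of the large domain which is in the small one or deep -/
def Xh (q Q : (ι → ℝ) → ℝ) (R R' a : ℝ) (m : ℕ) : Set (ι → ℤ) :=
  {v | q (ps m v) ≤ R' ∧ (q (ps m v) ≤ R ∨ Q (ps m v) ≤ -a)}

theorem Xh_inv {L : AddSubgroup (ι → ℤ)} {q Q : (ι → ℝ) → ℝ} (hq : PerL L q) (hQ : PerL L Q)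
    (R R' a : ℝ) {m : ℕ} (hm : 0 < m) : Inv (lam L m) (Xh q Q R R' a m) := by
  intro l hl v
  simp only [Xh, Set.mem_ofPred_eq, Fine_inv hq hm hl, Fine_inv hQ hm hl]

/-- the sublevel set on the grid -/
def Sl (f : (ι → ℝ) → ℝ) (b : ℝ) (m : ℕ) : Set (ι → ℤ) := {v | f (ps m v) ≤ b}

theorem Sl_inv {L : AddSubgroup (ι → ℤ)} {f : (ι → ℝ) → ℝ} (hf : PerL L f) (b : ℝ) {m : ℕ}
    (hm : 0 < m) : Inv (lam L m) (Sl f b m) := by
  intro l hl v
  simp only [Sl, Set.mem_ofPred_eq, Fine_inv hf hm hl]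

theorem acyc_Xh (F : Type*) [Field F] (L : AddSubgroup (ι → ℤ)) (q Q f : (ι → ℝ) → ℝ)
    (R R' a b : ℝ) (hD : Dm L q Q R' a) (hf : ContDiff ℝ 1 f) (hfp : PerL L f)
    (hdir : DirQ q Q f R R' a) :
    ∀ᶠ m : ℕ in atTop, (∀ j, HR F (lam L m) (Xm q R' m) (Xh q Q R R' a m) j 0) ∧
      ∀ j, HR F (lam L m) (Sl f b m ∩ Xm q R' m) (Sl f b m ∩ Xh q Q R R' a m) j 0 := by
  have hcl : IsClosed {y | R ≤ q y ∧ q y ≤ R' ∧ -a ≤ Q y} :=
    IsClosed.inter (isClosed_le continuous_const hD.q1.continuous)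
      (IsClosed.inter (isClosed_le hD.q1.continuous continuous_const)
        (isClosed_le continuous_const hD.Q1.continuous))
  have hdec : ∀ y ∈ {y | R ≤ q y ∧ q y ≤ R' ∧ -a ≤ Q y}, ∃ (i : ι) (s : Bool), ∃ r > 0,
      ∀ m : ℕ, 0 < m → ∀ w : ι → ℤ, Cl y r (ps m w) → Cl y r (ps m (w + Pi.single i (sz s))) →
      f (ps m (w + Pi.single i (sz s))) < f (ps m w) ∧
      q (ps m (w + Pi.single i (sz s))) < q (ps m w) ∧
      Q (ps m (w + Pi.single i (sz s))) < Q (ps m w) := by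
    intro y hy
    obtain ⟨i, s, h1, h2, h3⟩ := hdir y hy.1 hy.2.1 hy.2.2
    obtain ⟨r1, hr1, H1⟩ := fine_step f hf y i s h1
    obtain ⟨r2, hr2, H2⟩ := fine_step q hD.q1 y i s h2
    obtain ⟨r3, hr3, H3⟩ := fine_step Q hD.Q1 y i s h3
    refine ⟨i, s, min r1 (min r2 r3), lt_min hr1 (lt_min hr2 hr3), fun m hm w hw hw' => ?_⟩
    exact ⟨H1 m hm w (FineR_mono (min_le_left _ _) hw) (FineR_mono (min_le_left _ _) hw'),
      H2 m hm w (FineR_mono ((min_le_right _ _).trans (min_le_left _ _)) hw)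
      (FineR_mono ((min_le_right _ _).trans (min_le_left _ _)) hw'),
      H3 m hm w (FineR_mono ((min_le_right _ _).trans (min_le_right _ _)) hw)
      (FineR_mono ((min_le_right _ _).trans (min_le_right _ _)) hw')⟩
  have hreg : ∀ m : ℕ, 0 < m → ∀ v ∈ Xm q R' m, v ∉ Xh q Q R R' a m →
      ps m v ∈ {y | R ≤ q y ∧ q y ≤ R' ∧ -a ≤ Q y} := by
    intro m _ v hv hv'
    have h2 : ¬ (q (ps m v) ≤ R ∨ Q (ps m v) ≤ -a) := fun h => hv' ⟨hv, h⟩
    push Not at h2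
    exact ⟨h2.1.le, hv, h2.2.le⟩
  refine Filter.Eventually.and ?_ ?_
  · refine acyc F L q Q q R' a hD hD.qp _ hcl (fun y hy => ⟨hy.2.1, hy.2.2⟩)
      (fun m => Xh q Q R R' a m) (fun m => Xm q R' m)
      (fun m hm => Xh_inv hD.qp hD.Qp R R' a hm) (fun m hm => Xm_inv hD.qp R' hm)
      (fun m v hv => hv.1) hreg (fun y hy => ?_)
    obtain ⟨i, s, r, hr, H⟩ := hdec y hy
    refine ⟨i, s, r, hr, fun m hm w hw hw' => ?_⟩
    obtain ⟨-, k2, k3⟩ := H m hm w hw hw'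
    refine ⟨fun h => ⟨k2.le.trans h.1, h.2.imp (fun h => k2.le.trans h) fun h => k3.le.trans h⟩,
      fun h => ?_, k2⟩
    have h' : q (ps m w) ≤ R' := h
    exact k2.le.trans h'
  · refine acyc F L q Q q R' a hD hD.qp _ hcl (fun y hy => ⟨hy.2.1, hy.2.2⟩)
      (fun m => Sl f b m ∩ Xh q Q R R' a m) (fun m => Sl f b m ∩ Xm q R' m)
      (fun m hm l hl v => and_congr (Sl_inv hfp b hm l hl v) (Xh_inv hD.qp hD.Qp R R' a hm l hl v))
      (fun m hm l hl v => and_congr (Sl_inv hfp b hm l hl v) (Xm_inv hD.qp R' hm l hl v))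
      (fun m v hv => ⟨hv.1, hv.2.1⟩)
      (fun m hm v hv hv' => hreg m hm v hv.2 fun h => hv' ⟨hv.1, h⟩) (fun y hy => ?_)
    obtain ⟨i, s, r, hr, H⟩ := hdec y hy
    refine ⟨i, s, r, hr, fun m hm w hw hw' => ?_⟩
    obtain ⟨k1, k2, k3⟩ := H m hm w hw hw'
    refine ⟨fun h => ⟨?_, k2.le.trans h.2.1, h.2.2.imp (fun h => k2.le.trans h)
      fun h => k3.le.trans h⟩, fun h => ⟨?_, ?_⟩, k2⟩
    · have h' : f (ps m w) ≤ b := h.1
      exact k1.le.trans h'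
    · have h' : f (ps m w) ≤ b := h.1
      exact k1.le.trans h'
    · have h' : q (ps m w) ≤ R' := h.2
      exact k2.le.trans h'

/-- **Exact extension of cocycles** to a larger domain. -/
theorem dom_exact (F : Type*) [Field F] (L : AddSubgroup (ι → ℤ)) (q Q f : (ι → ℝ) → ℝ)
    (R R' a a₀ b s : ℝ) (hR : R ≤ R') (hD : Dm L q Q R' a₀) (hf : ContDiff ℝ 1 f)
    (hfp : PerL L f) (hdir : DirQ q Q f R R' a₀) (hs : ∀ y, f y ≤ Q y + s)
    (hb : s - a₀ + 1 ≤ b) :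
    ∀ᶠ m : ℕ in atTop, ∀ j, ∀ x₀ ∈ co (F := F) (lam L m) (Xm q R m) (Lv q Q f R a b m) j,
      dX (Xm q R m) x₀ = 0 →
      ∃ x ∈ co (F := F) (lam L m) (Xm q R' m) {v | f (ps m v) ≤ b} j,
        dX (Xm q R' m) x = 0 ∧ cut (In (Xm q R m)) x = x₀ := by
  classical
  filter_upwards [acyc_Xh F L q Q f R R' a₀ b hD hf hfp hdir,
    unif hD hD.Q1.continuous hD.Qp one_pos, eventually_gt_atTop 0] with m hac hun hm j x₀ hx₀ hdx
  have hX' := Xm_inv hD.qp R' hm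
  have hA := Sl_inv hfp b hm
  have hXX : Xm q R m ⊆ Xm q R' m := fun v hv => by
    have h : q (ps m v) ≤ R := hv
    exact h.trans hR
  -- `x₀` vanishes on the simplices of `A`
  have hx₀A : ∀ σ, (∀ v ∈ σ, v ∈ Sl f b m) → x₀ σ = 0 := by
    intro σ hσ
    by_contra h
    obtain ⟨h1, h2, -⟩ := hx₀.2 σ h
    exact h2 fun v hv => ⟨h1.2 v hv, Or.inr (hσ v hv)⟩
  have hx₀' : x₀ ∈ co (F := F) (lam L m) (Xm q R' m) (Sl f b m) j :=
    ⟨hx₀.1, fun σ hσ => ⟨in_mono hXX (hx₀.2 σ hσ).1, fun h => hσ (hx₀A σ h), (hx₀.2 σ hσ).2.2⟩⟩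
  have hz := dX_mem hX' hx₀'
  have hzA : ∀ σ, In (Sl f b m) σ → dX (Xm q R' m) x₀ σ = 0 := by
    intro σ hσ
    by_contra h
    exact (hz.2 σ h).2.1 hσ.2
  have hzh : ∀ σ, In (Xh q Q R R' a₀ m) σ → dX (Xm q R' m) x₀ σ = 0 := by
    intro σ hσ
    by_cases hl : ∀ v ∈ σ, v ∈ Sl f b m
    · exact hzA σ ⟨hσ.1, hl⟩
    · push Not at hl
      obtain ⟨w, hw, hw'⟩ := hl
      have h1 : b < f (ps m w) := not_le.1 hw'
      have h2 := hs (ps m w)
      have h3 := hσ.2 w hw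
      have hσX : In (Xm q R m) σ := by
        refine ⟨hσ.1, fun v hv => ?_⟩
        have h4 := hun w v h3.1 (by linarith) (adj_le (hσ.1 w hw v hv))
        have h5 := (abs_lt.1 h4).1
        have h6 := (hσ.2 v hv).2
        rcases h6 with h6 | h6
        · exact h6
        · exfalso
          linarith
      have h4 := congrFun hdx σ
      rw [dX_apply, if_pos hσX] at h4
      rw [dX_apply, if_pos (in_mono hXX hσX), h4, Pi.zero_apply]
  have hzX := co_of_vanish hz hzh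
  obtain ⟨y, hy, hyA, hzy⟩ := ker_exact hX' hA hac.1 hac.2 hzX hzA (dX_dX _ _)
  have hyA' : y ∈ co (F := F) (lam L m) (Xm q R' m) (Sl f b m) j := co_of_vanish hy hyA
  refine ⟨x₀ - y, Submodule.sub_mem _ hx₀' hyA', ?_, ?_⟩
  · rw [map_sub, ← hzy, sub_self]
  · ext σ
    rw [cut_apply]
    split_ifs with h
    · have h4 : y σ = 0 := by
        by_contra h4
        exact (hy.2 _ h4).2.1 fun v hv => ⟨hXX (h.2 v hv), Or.inl (h.2 v hv)⟩
      rw [Pi.sub_apply, h4, sub_zero]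
    · by_contra h4
      exact h (hx₀.2 σ fun h5 => h4 h5.symm).1

end Pool.Agent.H64.FU
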